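import Pool.Agent.helper6.EV.Spec
import Pool.Agent.helper57.LD.Z

/-!
# ev:CO, combination of `PW` and `zeta_expansion`
-/

set_option autoImplicit false

namespace Pool.Agent.EV

open N1f72dd46 Filter MeasureTheory Complex Metric Pool.Agent.helper6.LD

theorem CO (hPW : PW_stmt) : CO_stmt := by
  obtain ⟨C1, hC1, h1⟩ := hPW
  obtain ⟨C2, hC2, h2⟩ := zeta_expansion 4 (by norm_num)
  refine ⟨C1 + C2, by linarith, ?_⟩
  intro t k ht hk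
  have e1 := h1 t k hk
  have e2 := h2 t k (by linarith) hk
  have h154 : (4 : ℝ) - 1 / 4 = 15 / 4 := by norm_num
  rw [h154] at e2
  have e2' : ‖∑' n : ℕ, (wt 4 k n : ℂ) * (n : ℂ) ^ (-(t * I)) + Zs t k‖
      ≤ C2 * k ^ 2 * Real.log t * ((15 / 4 : ℝ) ^ k)⁻¹ := e2
  have hk1 : (1 : ℝ) ≤ (k : ℝ) ^ 2 := by
    have : (1 : ℝ) ≤ k := by exact_mod_cast hk
    nlinarith
  have hlog : (1 : ℝ) ≤ Real.log t := by
    rw [Real.le_log_iff_exp_le (by linarith)]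
    have := Real.exp_one_lt_d9
    linarith
  have hp : (0 : ℝ) < ((10 / 3 : ℝ) ^ k)⁻¹ := by positivity
  have hle : ((15 / 4 : ℝ) ^ k)⁻¹ ≤ ((10 / 3 : ℝ) ^ k)⁻¹ := by
    apply inv_anti₀ (by positivity)
    exact pow_le_pow_left₀ (by norm_num) (by norm_num) k
  have hkl : (1 : ℝ) ≤ (k : ℝ) ^ 2 * Real.log t := by nlinarith
  calc ‖(k : ℂ) * Bp (s4 t) k + Zs t k‖
      = ‖((k : ℂ) * Bp (s4 t) k - ∑' n : ℕ, (wt 4 k n : ℂ) * (n : ℂ) ^ (-(t * I))) +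
        (∑' n : ℕ, (wt 4 k n : ℂ) * (n : ℂ) ^ (-(t * I)) + Zs t k)‖ := by congr 1; ring
    _ ≤ _ := norm_add_le _ _
    _ ≤ C1 * ((10 / 3 : ℝ) ^ k)⁻¹ + C2 * k ^ 2 * Real.log t * ((15 / 4 : ℝ) ^ k)⁻¹ :=
        add_le_add e1 e2'
    _ ≤ C1 * (k ^ 2 * Real.log t) * ((10 / 3 : ℝ) ^ k)⁻¹ +
        C2 * k ^ 2 * Real.log t * ((10 / 3 : ℝ) ^ k)⁻¹ := by
        apply add_le_add
        · apply mul_le_mul_of_nonneg_right _ hp.le
          nlinarith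
        · apply mul_le_mul_of_nonneg_left hle
          have : 0 < C2 * (k ^ 2 * Real.log t) := by positivity
          nlinarith
    _ = (C1 + C2) * k ^ 2 * Real.log t * ((10 / 3 : ℝ) ^ k)⁻¹ := by ring

end Pool.Agent.EV
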